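import Mathlib
import Pool.Agent.V11217.SDR

/-!
A Markov k-Menger Urysohn space that is not Markov k-Rothberger.
-/

namespace Pool.Agent.Results.MP_41ff45_gt.MarkovMenger

open Set Filter Topology

/-- `𝒰` is a k-cover of `X`: a family of open sets such that every compact subset of `X` lies
in a member of `𝒰`. -/
def IsKCover {X : Type*} [TopologicalSpace X] (𝒰 : Set (Set X)) : Prop :=
  (∀ U ∈ 𝒰, IsOpen U) ∧ ∀ K : Set X, IsCompact K → ∃ U ∈ 𝒰, K ⊆ U

/-- P2 has a winning Markov strategy (a function of the round number and of the current move of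
P1) in the finite-selection game on k-covers. -/
def MarkovKMenger (X : Type*) [TopologicalSpace X] : Prop :=
  ∃ σ : ℕ → Set (Set X) → Set (Set X), ∀ 𝒰 : ℕ → Set (Set X), (∀ n, IsKCover (𝒰 n)) →
    (∀ n, σ n (𝒰 n) ⊆ 𝒰 n ∧ (σ n (𝒰 n)).Finite) ∧ IsKCover (⋃ n, σ n (𝒰 n))

/-- P2 has a winning Markov strategy in the single-selection game on k-covers. -/
def MarkovKRothberger (X : Type*) [TopologicalSpace X] : Prop :=
  ∃ σ : ℕ → Set (Set X) → Set X, ∀ 𝒰 : ℕ → Set (Set X), (∀ n, IsKCover (𝒰 n)) →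
    (∀ n, σ n (𝒰 n) ∈ 𝒰 n) ∧ IsKCover (Set.range (fun n => σ n (𝒰 n)))

/-- The finest topology that agrees with `t` in a weak sense on all sublevel sets of `c`. -/
@[reducible] def fine {X : Type} (t : TopologicalSpace X) (c : X → ℕ) : TopologicalSpace X where
  IsOpen U := ∀ x ∈ U, ∀ n : ℕ, ∃ O, IsOpen[t] O ∧ x ∈ O ∧ O ∩ {y | c y ≤ n} ⊆ U
  isOpen_univ := fun x _ n => ⟨univ, @isOpen_univ _ t, trivial, by simp⟩
  isOpen_inter := by
    intro s u hs hu x hx n
    obtain ⟨O1, h1, h2, h3⟩ := hs x hx.1 n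
    obtain ⟨O2, g1, g2, g3⟩ := hu x hx.2 n
    exact ⟨O1 ∩ O2, @IsOpen.inter _ t _ _ h1 g1, ⟨h2, g2⟩,
      fun y hy => ⟨h3 ⟨hy.1.1, hy.2⟩, g3 ⟨hy.1.2, hy.2⟩⟩⟩
  isOpen_sUnion := by
    rintro 𝒮 h x ⟨s, hs, hxs⟩ n
    obtain ⟨O, h1, h2, h3⟩ := h s hs x hxs n
    exact ⟨O, h1, h2, h3.trans (subset_sUnion_of_mem hs)⟩

variable {X : Type}

theorem fine_open_iff (t : TopologicalSpace X) (c : X → ℕ) (U : Set X) :
    IsOpen[fine t c] U ↔
      ∀ x ∈ U, ∀ n : ℕ, ∃ O, IsOpen[t] O ∧ x ∈ O ∧ O ∩ {y | c y ≤ n} ⊆ U := Iff.rfl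

theorem fine_le (t : TopologicalSpace X) (c : X → ℕ) : fine t c ≤ t := by
  intro U hU
  rw [fine_open_iff]
  intro x hx n
  exact ⟨U, hU, hx, inter_subset_left⟩

theorem fine_compl (t : TopologicalSpace X) [hT : @T1Space X t] (c : X → ℕ) {D : Set X}
    (hD : ∀ n, (D ∩ {y | c y ≤ n}).Finite) : IsOpen[fine t c] Dᶜ := by
  rw [fine_open_iff]
  intro x hx n
  refine ⟨(D ∩ {y | c y ≤ n})ᶜ, ?_, fun h => hx h.1, fun y hy hyD => hy.1 ⟨hyD, hy.2⟩⟩
  exact (hD n).isClosed.isOpen_compl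

/-- In a topology where compact sets are closed for `t` and no infinite closed set lies in
finitely many colour classes, compact sets are finite. -/
theorem fine_compact_finite (t : TopologicalSpace X) [hT : @T2Space X t] (c : X → ℕ)
    (hc : ∀ C : Set X, C.Infinite → IsClosed[t] C → ∀ n, ∃ p ∈ C, c p = n)
    {K : Set X} (hK : @IsCompact _ (fine t c) K) : K.Finite := by
  by_contra hinf
  have hinf' : K.Infinite := hinf
  have hKt : @IsCompact _ t K := by
    have h1 : @Continuous _ _ (fine t c) t (id : X → X) := continuous_id_iff_le.2 (fine_le t c)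
    have := @IsCompact.image _ _ (fine t c) t _ _ hK h1
    simpa using this
  have hKc : IsClosed[t] K := @IsCompact.isClosed _ t _ _ hKt
  choose g hgK hgc using fun n => hc K hinf' hKc n
  let D : Set X := Set.range g
  have hDK : D ⊆ K := by rintro _ ⟨m, rfl⟩; exact hgK m
  have hginj : Function.Injective g := by
    intro a b hab
    rw [← hgc a, ← hgc b, hab]
  have hDinf : D.Infinite := Set.infinite_range_of_injective hginj
  have hDsub : ∀ E ⊆ D, IsOpen[fine t c] Eᶜ := by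
    intro E hE
    apply fine_compl
    intro n
    refine ((Set.finite_le_nat n).image g).subset ?_
    rintro y ⟨hyE, hyn⟩
    obtain ⟨m, rfl⟩ := hE hyE
    refine ⟨m, ?_, rfl⟩
    have : c (g m) ≤ n := hyn
    rw [hgc] at this
    exact this
  obtain ⟨s, hs⟩ := @IsCompact.elim_finite_subcover _ (fine t c) _ ℕ hK
    (fun m => (D \ {g m})ᶜ) (fun m => hDsub _ diff_subset) (by
      intro x hx
      rw [mem_iUnion]
      by_cases hxD : x ∈ D
      · obtain ⟨m, hm⟩ := hxD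
        exact ⟨m, fun h => h.2 hm.symm⟩
      · exact ⟨0, fun h => hxD h.1⟩)
  apply hDinf
  refine (s.finite_toSet.image g).subset ?_
  intro x hx
  have := hs (hDK hx)
  simp only [mem_iUnion, exists_prop, mem_compl_iff, mem_diff, mem_singleton_iff] at this
  obtain ⟨m, hm, hne⟩ := this
  refine ⟨m, hm, ?_⟩
  by_contra hcon
  exact hne ⟨hx, fun h => hcon h.symm⟩

/-- a k-cover when compact sets are finite -/
theorem kcover_iff {σ : TopologicalSpace X} (hfin : ∀ K : Set X, @IsCompact _ σ K → K.Finite)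
    (𝒰 : Set (Set X)) :
    @IsKCover _ σ 𝒰 ↔ (∀ U ∈ 𝒰, IsOpen[σ] U) ∧ ∀ F : Set X, F.Finite → ∃ U ∈ 𝒰, F ⊆ U := by
  constructor
  · rintro ⟨h1, h2⟩
    exact ⟨h1, fun F hF => h2 F (@Set.Finite.isCompact _ σ _ hF)⟩
  · rintro ⟨h1, h2⟩
    exact ⟨h1, fun K hK => h2 K (hfin K hK)⟩

theorem key (t : TopologicalSpace X) (hcomp : @CompactSpace X t) (c : X → ℕ) (𝒰 : Set (Set X))
    (hop : ∀ U ∈ 𝒰, IsOpen[fine t c] U) (hcov : ∀ F : Set X, F.Finite → ∃ U ∈ 𝒰, F ⊆ U)
    (k : ℕ) :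
    ∃ (ℱ : Set (Set X)), ℱ ⊆ 𝒰 ∧ ℱ.Finite ∧
      ∀ y : ℕ → X, ∃ U ∈ ℱ, ∀ i < k, c (y i) ≤ k → y i ∈ U := by
  classical
  have h1 : ∀ x : Fin k → X, ∃ U ∈ 𝒰, range x ⊆ U := fun x => hcov _ (finite_range x)
  choose U hU hUx using h1
  have h2 : ∀ (x : Fin k → X) (i : Fin k), ∃ O, IsOpen[t] O ∧ x i ∈ O ∧
      O ∩ {y | c y ≤ k} ⊆ U x :=
    fun x i => (fine_open_iff t c _).1 (hop _ (hU x)) (x i) (hUx x ⟨i, rfl⟩) k
  choose O hO hxO hOc using h2
  have hbox : ∀ x : Fin k → X, IsOpen {y : Fin k → X | ∀ i, y i ∈ O x i} := by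
    intro x
    have : {y : Fin k → X | ∀ i, y i ∈ O x i} = Set.univ.pi (O x) := by
      ext y; simp
    rw [this]
    exact isOpen_set_pi Set.finite_univ (fun i _ => hO x i)
  obtain ⟨s, hs⟩ := isCompact_univ.elim_finite_subcover _ hbox
    (fun x _ => mem_iUnion.2 ⟨x, fun i => hxO x i⟩)
  refine ⟨U '' (↑s : Set (Fin k → X)), ?_, s.finite_toSet.image _, ?_⟩
  · rintro _ ⟨x, _, rfl⟩; exact hU x
  · intro y
    have hy := hs (mem_univ (fun i : Fin k => y i))
    simp only [mem_iUnion, exists_prop] at hy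
    obtain ⟨x, hxs, hyx⟩ := hy
    refine ⟨U x, ⟨x, hxs, rfl⟩, ?_⟩
    intro i hi hyc
    exact hOc x ⟨i, hi⟩ ⟨hyx ⟨i, hi⟩, hyc⟩

theorem result : ∃ (X : Type) (_ : TopologicalSpace X), T25Space X ∧
    MarkovKMenger X ∧ ¬ MarkovKRothberger X := by
  classical
  obtain ⟨c, hc⟩ := Pool.Agent.V11217.exists_coloring
  let t : TopologicalSpace (Ultrafilter ℕ) := inferInstance
  let σ : TopologicalSpace (Ultrafilter ℕ) := fine t c
  have hfin : ∀ K : Set (Ultrafilter ℕ), @IsCompact _ σ K → K.Finite :=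
    fun K hK => fine_compact_finite t c hc hK
  refine ⟨Ultrafilter ℕ, σ, ?_, ?_, ?_⟩
  · have hcont : @Continuous _ _ σ t (id : Ultrafilter ℕ → Ultrafilter ℕ) :=
      continuous_id_iff_le.2 (fine_le t c)
    have h25 : @T25Space _ t := inferInstance
    exact @T25Space.of_injective_continuous _ _ σ t h25 id Function.injective_id hcont
  · have hex : ∀ (k : ℕ) (𝒰 : Set (Set (Ultrafilter ℕ))), ∃ ℱ : Set (Set (Ultrafilter ℕ)),
        @IsKCover _ σ 𝒰 → ℱ ⊆ 𝒰 ∧ ℱ.Finite ∧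
        ∀ y : ℕ → Ultrafilter ℕ, ∃ U ∈ ℱ, ∀ i < k, c (y i) ≤ k → y i ∈ U := by
      intro k 𝒰
      by_cases h : @IsKCover _ σ 𝒰
      · obtain ⟨h1, h2⟩ := (kcover_iff hfin 𝒰).1 h
        obtain ⟨ℱ, hℱ⟩ := key t inferInstance c 𝒰 h1 h2 k
        exact ⟨ℱ, fun _ => hℱ⟩
      · exact ⟨∅, fun h' => absurd h' h⟩
    choose S hS using hex
    refine ⟨S, ?_⟩
    intro 𝒰 h𝒰
    refine ⟨fun n => ⟨(hS n (𝒰 n) (h𝒰 n)).1, (hS n (𝒰 n) (h𝒰 n)).2.1⟩, ?_⟩
    rw [kcover_iff hfin]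
    refine ⟨?_, ?_⟩
    · intro U hU
      obtain ⟨n, hn⟩ := mem_iUnion.1 hU
      exact (h𝒰 n).1 U ((hS n (𝒰 n) (h𝒰 n)).1 hn)
    · intro F hF
      obtain ⟨y, hy⟩ := (hF.countable.insert (pure 0)).exists_eq_range (insert_nonempty _ _)
      have hb : ∀ x ∈ F, ∃ N, ∀ n, N ≤ n → (∃ j < n, y j = x) ∧ c x ≤ n := by
        intro x hx
        have hxy : x ∈ range y := by rw [← hy]; exact mem_insert_of_mem _ hx
        obtain ⟨j, hj⟩ := hxy
        refine ⟨max (j + 1) (c x), fun n hn => ⟨⟨j, ?_, hj⟩, (le_max_right _ _).trans hn⟩⟩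
        have := (le_max_left (j + 1) (c x)).trans hn
        omega
      choose! N hN using hb
      obtain ⟨M, hM⟩ := (hF.image N).bddAbove
      obtain ⟨U, hU, hyU⟩ := (hS M (𝒰 M) (h𝒰 M)).2.2 y
      refine ⟨U, mem_iUnion.2 ⟨M, hU⟩, ?_⟩
      intro x hx
      obtain ⟨⟨j, hj, hjx⟩, h2⟩ := hN x hx M (hM ⟨x, hx, rfl⟩)
      rw [← hjx]
      exact hyU j hj (by rw [hjx]; exact h2)
  · rintro ⟨ρ, hρ⟩
    -- the intersection of all answers in round n is finite
    let A : ℕ → Set (Ultrafilter ℕ) := fun n =>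
      {x | ∀ 𝒰 : Set (Set (Ultrafilter ℕ)), @IsKCover _ σ 𝒰 → x ∈ ρ n 𝒰}
    have hA : ∀ n, (A n).Finite := by
      intro n
      by_contra hinf
      have hinf' : (A n).Infinite := hinf
      have hcov : @IsKCover _ σ ((fun x => {x}ᶜ) '' (A n)) := by
        rw [kcover_iff hfin]
        refine ⟨?_, ?_⟩
        · rintro _ ⟨x, _, rfl⟩
          apply fine_le t c
          have h1 : @T1Space _ t := inferInstance
          exact @isOpen_compl_singleton _ t h1 x
        · intro F hF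
          obtain ⟨x, hx, hxF⟩ := hinf'.exists_notMem_finite hF
          exact ⟨{x}ᶜ, ⟨x, hx, rfl⟩, fun y hy hyx => hxF (by
            rw [mem_singleton_iff] at hyx; rw [← hyx]; exact hy)⟩
      have h1 := (hρ (fun _ => (fun x => {x}ᶜ) '' (A n)) (fun _ => hcov)).1 n
      obtain ⟨x, hx, hxe⟩ := h1
      have h2 := hx _ hcov
      rw [← hxe] at h2
      exact h2 rfl
    have hcount : (⋃ n, A n).Countable := countable_iUnion (fun n => (hA n).countable)
    have huniv : (⋃ n, A n) = univ := by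
      rw [eq_univ_iff_forall]
      intro x
      by_contra hcon
      simp only [mem_iUnion, not_exists] at hcon
      have : ∀ n, ∃ 𝒰 : Set (Set (Ultrafilter ℕ)), @IsKCover _ σ 𝒰 ∧ x ∉ ρ n 𝒰 := by
        intro n
        have := hcon n
        simp only [A, mem_setOf_eq] at this
        push Not at this
        exact this
      choose 𝒰 h𝒰 hx using this
      have h1 := (hρ 𝒰 h𝒰).2
      rw [kcover_iff hfin] at h1
      obtain ⟨U, ⟨n, hn⟩, hU⟩ := h1.2 {x} (finite_singleton x)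
      apply hx n
      rw [← hn] at hU
      exact hU rfl
    rw [huniv] at hcount
    have := Pool.Agent.V11217.bn_uncountable
    exact Set.not_countable_univ hcount

end Pool.Agent.Results.MP_41ff45_gt.MarkovMenger
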